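import Pool.Agent.Q70.ErD

/-!
# The points with a dense orbit under the erasing substitution map

The definitions of the map `R` (with `bin`, `rho` and `Inf`) are in `Pool.Agent.Q70.ErA` and the
definition of the set `E` is in `Pool.Agent.Q70.ErD`.
-/

set_option autoImplicit false

namespace Pool.Agent.Results.MP_7df46e_an.DenseOrbits

open MeasureTheory Set Q70.Er

/-- The set `E` of points of `[0, 1]` with a dense orbit under `R` is comeagre in `[0, 1]` and has
Lebesgue measure `1`. -/
theorem result :
    (Subtype.val ⁻¹' E : Set (Icc (0 : ℝ) 1)) ∈ residual (Icc (0 : ℝ) 1) ∧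
      volume E = 1 ∧ volume (Icc (0 : ℝ) 1 \ E) = 0 :=
  ⟨E_residual, volume_E, compl_E_null⟩

end Pool.Agent.Results.MP_7df46e_an.DenseOrbits
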